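import Mathlib
import Pool.Agent.Lib.MP_01798d_co.Data

set_option autoImplicit false

namespace Pool.Agent.Results.MP_01798d_co.ExactLarge

/-- The metric space `X` embeds isometrically into `ℝ^m` with the `ℓ_1` metric. -/
def EmbedsL1 (X : Type) [MetricSpace X] (m : ℕ) : Prop :=
  ∃ φ : X → Fin m → ℝ, ∀ x y : X, ∑ k, |φ x k - φ y k| = dist x y

theorem result (n : ℕ) (hn : 15 ≤ n) :
    IsLeast {m : ℕ | 1 ≤ m ∧ ∀ (X : Type) [MetricSpace X] [Fintype X], Fintype.card X = n →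
      (∃ r, 1 ≤ r ∧ EmbedsL1 X r) → EmbedsL1 X m} (n.choose 2 - 1) := by
  have h3 : 3 ≤ n.choose 2 := by
    have := Nat.choose_le_choose 2 (show 3 ≤ n by omega)
    simpa using this
  constructor
  · refine ⟨by omega, fun X _ _ hX ⟨r, _, φ, hφ⟩ => ?_⟩
    classical
    obtain ⟨ψ, hψ⟩ := Pool.Agent.Lib.MP_01798d_co.upper_bound (X := X) (by omega) φ
    subst hX
    exact ⟨ψ, fun x y => (hψ x y).trans (hφ x y)⟩
  · rintro m ⟨-, hm⟩
    by_contra hlt
    obtain ⟨M, rfl⟩ : ∃ M, n = 9 + M + 1 := ⟨n - 10, by omega⟩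
    obtain ⟨φ, h1, h2⟩ := Pool.Agent.Lib.MP_01798d_co.lower M (by omega) m (by omega)
    let e := Fintype.equivFin (Finset (Fin 9 ⊕ Fin M))
    let f : Option (Fin 9 ⊕ Fin M) → PiLp 1 (fun _ : Finset (Fin 9 ⊕ Fin M) => ℝ) :=
      fun x => WithLp.toLp 1 (φ x)
    letI : MetricSpace (Option (Fin 9 ⊕ Fin M)) :=
      MetricSpace.induced f (fun x y h => h1 (congrArg WithLp.ofLp h)) inferInstance
    have hd : ∀ x y : Option (Fin 9 ⊕ Fin M), dist x y = ∑ S, |φ x S - φ y S| := by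
      intro x y
      change dist (f x) (f y) = _
      rw [PiLp.dist_eq_of_L1]
      rfl
    obtain ⟨ψ, hψ⟩ := hm (Option (Fin 9 ⊕ Fin M)) (by simp)
      ⟨Fintype.card (Finset (Fin 9 ⊕ Fin M)), Fintype.card_pos, fun x k => φ x (e.symm k),
        fun x y => by rw [hd, ← Equiv.sum_comp e.symm]⟩
    exact h2 ψ (fun x y => (hψ x y).trans (hd x y))

end Pool.Agent.Results.MP_01798d_co.ExactLarge
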